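import Pool.Agent.Helper52.Wq2.Cyls

/-!
# NW-CRX, part 1: a star of lines in a ladder with crossings
-/

set_option autoImplicit false

namespace Pool.Agent.Helper48.NW

open Pool.Agent.Helper52.Wq2

/-- The segments of the centre. -/
def Tn (q : ℕ) (x : ℤ) (j : ℕ) (a b : ℤ) : Prop :=
  (j = 0 ∧ a = 2 * q + (2 * q + 1) * x ∧ b = 2 * q + 1 + (2 * q + 1) * x) ∨
  (j ≠ 0 ∧ j % 2 = 0 ∧ a = -1 + (2 * q + 1) * x ∧ b = j + (2 * q + 1) * x) ∨
  (j % 2 = 1 ∧ a = j - 1 + (2 * q + 1) * x ∧ b = 2 * q + (2 * q + 1) * x)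

/-- The segments of the leaf `i`. -/
def Ts (q : ℕ) (x : ℤ) (i : ℕ) (j : ℕ) (a b : ℤ) : Prop :=
  (j = 2 * i ∧ a = 2 * i + (2 * q + 1) * x ∧ b = 2 * q + (2 * q + 1) * x) ∨
  (j = 2 * i + 1 ∧ a = 2 * q + (2 * q + 1) * x ∧ b = 2 * q + 1 + 2 * i + (2 * q + 1) * x)

/-- All segments. -/
def T (q : ℕ) (x : ℤ) (o : Option (Fin q)) (j : ℕ) (a b : ℤ) : Prop :=
  match o with
  | none => Tn q x j a b
  | some i => Ts q x i j a b

theorem T_uniq {q : ℕ} {x x' : ℤ} {o o' : Option (Fin q)} {j : ℕ} {a b a' b' : ℤ}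
    (hj : j < 2 * q) (h : T q x o j a b) (h' : T q x' o' j a' b') (h1 : a' < b) (h2 : a < b') :
    x = x' ∧ o = o' := by
  have k1 : x < x' → (2 * (q : ℤ) + 1) * x + (2 * q + 1) ≤ (2 * (q : ℤ) + 1) * x' := by
    intro hx
    have h3 : x + 1 ≤ x' := hx
    have h4 := mul_le_mul_of_nonneg_left h3 (show (0 : ℤ) ≤ 2 * (q : ℤ) + 1 by positivity)
    linarith
  have k2 : x' < x → (2 * (q : ℤ) + 1) * x' + (2 * q + 1) ≤ (2 * (q : ℤ) + 1) * x := by
    intro hx
    have h3 : x' + 1 ≤ x := hx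
    have h4 := mul_le_mul_of_nonneg_left h3 (show (0 : ℤ) ≤ 2 * (q : ℤ) + 1 by positivity)
    linarith
  have k3 : x = x' → (2 * (q : ℤ) + 1) * x = (2 * (q : ℤ) + 1) * x' := by
    rintro rfl
    rfl
  cases o with
  | none =>
    cases o' with
    | none =>
      change Tn q x j a b at h
      change Tn q x' j a' b' at h'
      unfold Tn at h h'
      generalize (2 * (q : ℤ) + 1) * x = X at *
      generalize (2 * (q : ℤ) + 1) * x' = X' at *
      refine ⟨?_, rfl⟩
      omega
    | some i' =>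
      exfalso
      have hi' := i'.2
      change Tn q x j a b at h
      change Ts q x' i' j a' b' at h'
      unfold Tn at h
      unfold Ts at h'
      generalize (2 * (q : ℤ) + 1) * x = X at *
      generalize (2 * (q : ℤ) + 1) * x' = X' at *
      omega
  | some i =>
    have hi := i.2
    cases o' with
    | none =>
      exfalso
      change Ts q x i j a b at h
      change Tn q x' j a' b' at h'
      unfold Ts at h
      unfold Tn at h'
      generalize (2 * (q : ℤ) + 1) * x = X at *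
      generalize (2 * (q : ℤ) + 1) * x' = X' at *
      omega
    | some i' =>
      have hi' := i'.2
      change Ts q x i j a b at h
      change Ts q x' i' j a' b' at h'
      unfold Ts at h h'
      generalize (2 * (q : ℤ) + 1) * x = X at *
      generalize (2 * (q : ℤ) + 1) * x' = X' at *
      refine ⟨by omega, ?_⟩
      congr 1
      apply Fin.ext
      omega

/-- A piece of a line. -/
def Seg {W : Type*} (f : ℕ → ℤ → W) (j : ℕ) (c d : ℤ) : Set W :=
  {v | ∃ x, (c < x ∧ x ≤ d) ∧ f j x = v}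

theorem conn_seg {W : Type*} {G : SimpleGraph W} (f : ℕ → ℤ → W) (j : ℕ)
    (hv : ∀ y, G.Adj (f j y) (f j (y + 1))) (c d : ℤ) (hcd : c < d) : Conn G (Seg f j c d) :=
  conn_line (f j) (fun x => c < x ∧ x ≤ d) d ⟨hcd, le_rfl⟩
    (fun x hx h => ⟨by omega, by omega⟩) (fun x hx h => ⟨by omega, by omega⟩)
    (fun x _ _ => hv x)

theorem star_of_ladder {W : Type*} (G : SimpleGraph W) (q : ℕ) (hq : 0 < q) (f : ℕ → ℤ → W)
    (U : ℤ) (hU : 0 < U)
    (hinj : ∀ j j' : ℕ, j < 2 * q → j' < 2 * q → ∀ y y', f j y = f j' y' → j = j' ∧ y = y')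
    (hv : ∀ j < 2 * q, ∀ y, G.Adj (f j y) (f j (y + 1)))
    (hc1 : ∀ i < q, ∀ k : ℤ, G.Adj (f (2 * i) (U * k)) (f (2 * i + 1) (U * k + 1)))
    (hc2 : ∀ i < q, ∀ k : ℤ, G.Adj (f (2 * i + 1) (U * k)) (f (2 * i) (U * k + 1)))
    (hr : ∀ i, i + 1 < q → ∃ σ τ : ℤ, |σ| < U ∧ |τ| < U ∧
      ∀ k : ℤ, G.Adj (f (2 * i + 1) (σ + U * k)) (f (2 * i + 2) (τ + U * k))) :
    Mn (StarZ (Fin q)) G := by
  have hlt : ∀ a b : ℤ, a < b → U * a < U * b := fun a b h => mul_lt_mul_of_pos_left h hU
  have hlt' : ∀ a b : ℤ, U * a < U * b → a < b := fun a b h => lt_of_mul_lt_mul_left h hU.le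
  have hle1 : ∀ a b : ℤ, a < b → U * a + 1 ≤ U * b := fun a b h => hlt a b h
  -- the pieces of the centre
  let A : ℤ → ℕ → Set W := fun x k =>
    {w | ∃ a b y, Tn q x k a b ∧ U * a < y ∧ y ≤ U * b ∧ f k y = w}
  have hA : ∀ x k, k < 2 * q → ∃ a b, Tn q x k a b ∧ a < b ∧ A x k = Seg f k (U * a) (U * b) := by
    intro x k hk
    have huniq : ∀ a b a' b', Tn q x k a b → Tn q x k a' b' → a = a' ∧ b = b' := by
      intro a b a' b' h h'
      unfold Tn at h h'
      generalize (2 * (q : ℤ) + 1) * x = X at *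
      omega
    have hex : ∃ a b, Tn q x k a b ∧ a < b := by
      rcases Nat.eq_zero_or_pos k with h0 | h0
      · exact ⟨_, _, Or.inl ⟨h0, rfl, rfl⟩, by linarith⟩
      · rcases Nat.mod_two_eq_zero_or_one k with h1 | h1
        · exact ⟨_, _, Or.inr (Or.inl ⟨by omega, h1, rfl, rfl⟩), by
            have : (0 : ℤ) ≤ k := Int.natCast_nonneg k
            linarith⟩
        · refine ⟨_, _, Or.inr (Or.inr ⟨h1, rfl, rfl⟩), ?_⟩
          generalize (2 * (q : ℤ) + 1) * x = X
          omega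
    obtain ⟨a, b, hT, hab⟩ := hex
    refine ⟨a, b, hT, hab, ?_⟩
    ext w
    constructor
    · rintro ⟨a', b', y, h1, h2, h3, h4⟩
      obtain ⟨rfl, rfl⟩ := huniq _ _ _ _ hT h1
      exact ⟨y, ⟨h2, h3⟩, h4⟩
    · rintro ⟨y, ⟨h2, h3⟩, h4⟩
      exact ⟨a, b, y, hT, h2, h3, h4⟩
  let φ : ℤ × Option (Fin q) → Set W := fun v =>
    {w | ∃ j a b y, j < 2 * q ∧ T q v.1 v.2 j a b ∧ U * a < y ∧ y ≤ U * b ∧ f j y = w}
  refine ⟨φ, ?_, ?_, ?_⟩
  · rintro ⟨x, o⟩
    cases o with
    | none =>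
      have h1 := conn_chain (G := G) (A x) (2 * q - 1) ?_ ?_
      · have e : φ (x, none) = {v | ∃ i, i ≤ 2 * q - 1 ∧ v ∈ A x i} := by
          ext w
          constructor
          · rintro ⟨j, a, b, y, hj, hT, h1, h2, h3⟩
            exact ⟨j, by omega, a, b, y, hT, h1, h2, h3⟩
          · rintro ⟨j, hj, a, b, y, hT, h1, h2, h3⟩
            exact ⟨j, a, b, y, by omega, hT, h1, h2, h3⟩
        rw [e]
        exact h1
      · intro k hk
        obtain ⟨a, b, -, hab, he⟩ := hA x k (by omega)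
        rw [he]
        exact conn_seg f k (hv k (by omega)) _ _ (hlt a b hab)
      · intro k hk
        rcases Nat.eq_zero_or_pos k with h0 | h0
        · -- from line 0 to line 1
          subst h0
          have hc := hc2 0 hq (2 * q + (2 * q + 1) * x)
          refine ⟨f 0 (U * (2 * q + (2 * q + 1) * x) + 1), ?_,
            f (0 + 1) (U * (2 * q + (2 * q + 1) * x)), ?_, ?_⟩
          · exact ⟨_, _, _, Or.inl ⟨rfl, rfl, rfl⟩, by linarith, hle1 _ _ (by linarith), rfl⟩
          · refine ⟨_, _, _, Or.inr (Or.inr ⟨rfl, rfl, rfl⟩), ?_, le_rfl, rfl⟩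
            apply hlt
            push_cast
            have : (0 : ℤ) < q := by exact_mod_cast hq
            linarith
          · simpa using hc.symm
        · rcases Nat.mod_two_eq_zero_or_one k with h1 | h1
          · -- from `a_i` to `B_i`
            obtain ⟨i, rfl⟩ : ∃ i, k = 2 * i := ⟨k / 2, by omega⟩
            have hc := hc1 i (by omega) (2 * i + (2 * q + 1) * x)
            refine ⟨f (2 * i) (U * (2 * i + (2 * q + 1) * x)), ?_,
              f (2 * i + 1) (U * (2 * i + (2 * q + 1) * x) + 1), ?_, hc⟩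
            · refine ⟨_, _, _, Or.inr (Or.inl ⟨by omega, h1, rfl, rfl⟩), ?_, ?_, rfl⟩
              · apply hlt
                have : (0 : ℤ) ≤ i := Int.natCast_nonneg i
                linarith
              · push_cast
                exact le_rfl
            · refine ⟨_, _, _, Or.inr (Or.inr ⟨by omega, rfl, rfl⟩), ?_, ?_, rfl⟩
              · push_cast
                rw [show (2 * (i : ℤ) + 1 - 1 + (2 * q + 1) * x)
                  = 2 * (i : ℤ) + (2 * q + 1) * x by ring]
                linarith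
              · apply hle1
                have : (i : ℤ) < q := by
                  have : i < q := by omega
                  exact_mod_cast this
                linarith
          · -- from `B_i` to `a_{i + 1}`
            obtain ⟨i, rfl⟩ : ∃ i, k = 2 * i + 1 := ⟨k / 2, by omega⟩
            obtain ⟨σ, τ, hσ, hτ, hc⟩ := hr i (by omega)
            have hσ' := abs_lt.1 hσ
            have hτ' := abs_lt.1 hτ
            have hiq : (i : ℤ) + 1 < q := by
              have : i + 1 < q := by omega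
              exact_mod_cast this
            have hi0 : (0 : ℤ) ≤ i := Int.natCast_nonneg i
            have g1 := hlt (2 * (i : ℤ) + (2 * q + 1) * x) (2 * i + 1 + (2 * q + 1) * x)
              (by linarith)
            have key : ∀ a : ℤ, U * (a + 1) = U * a + U := fun a => by ring
            refine ⟨f (2 * i + 1) (σ + U * (2 * i + 1 + (2 * q + 1) * x)), ?_,
              f (2 * i + 2) (τ + U * (2 * i + 1 + (2 * q + 1) * x)), ?_, hc _⟩
            · refine ⟨_, _, _, Or.inr (Or.inr ⟨h1, rfl, rfl⟩), ?_, ?_, rfl⟩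
              · push_cast
                have e1 : U * (2 * (i : ℤ) + 1 + (2 * q + 1) * x)
                    = U * (2 * (i : ℤ) + 1 - 1 + (2 * q + 1) * x) + U := by ring
                rw [e1]
                linarith
              · have e1 : U * (2 * (i : ℤ) + 2 + (2 * q + 1) * x)
                    = U * (2 * (i : ℤ) + 1 + (2 * q + 1) * x) + U := by ring
                have e2 := hlt (2 * (i : ℤ) + 2 + (2 * q + 1) * x) (2 * q + (2 * q + 1) * x)
                  (by linarith)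
                linarith
            · refine ⟨_, _, _, Or.inr (Or.inl ⟨by omega, by omega, rfl, rfl⟩), ?_, ?_, rfl⟩
              · have e1 : U * (2 * (i : ℤ) + 1 + (2 * q + 1) * x)
                    = U * (-1 + (2 * q + 1) * x) + U * (2 * i) + 2 * U := by ring
                have e2 : 0 ≤ U * (2 * (i : ℤ)) := by positivity
                linarith
              · push_cast
                have e1 : U * (2 * (i : ℤ) + 2 + (2 * q + 1) * x)
                    = U * (2 * (i : ℤ) + 1 + (2 * q + 1) * x) + U := by ring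
                have e3 : (2 * (i : ℤ) + 1 + 1 + (2 * q + 1) * x)
                    = 2 * (i : ℤ) + 2 + (2 * q + 1) * x := by ring
                first
                  | (rw [e3, e1]; linarith)
                  | (rw [e1]; linarith)
    | some i =>
      have hi := i.2
      have hiq : ((i : ℕ) : ℤ) < q := by exact_mod_cast hi
      have hi0 : (0 : ℤ) ≤ ((i : ℕ) : ℤ) := Int.natCast_nonneg _
      have s1 := conn_seg (G := G) f (2 * i) (hv _ (by omega))
        (U * (2 * (i : ℕ) + (2 * q + 1) * x)) (U * (2 * q + (2 * q + 1) * x))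
        (hlt _ _ (by linarith))
      have s2 := conn_seg (G := G) f (2 * i + 1) (hv _ (by omega))
        (U * (2 * q + (2 * q + 1) * x)) (U * (2 * q + 1 + 2 * (i : ℕ) + (2 * q + 1) * x))
        (hlt _ _ (by linarith))
      have hc := hc1 i hi (2 * q + (2 * q + 1) * x)
      have s3 := s1.union s2 (a := f (2 * i) (U * (2 * q + (2 * q + 1) * x)))
        (b := f (2 * i + 1) (U * (2 * q + (2 * q + 1) * x) + 1))
        ⟨_, ⟨hlt _ _ (by linarith), le_rfl⟩, rfl⟩
        ⟨_, ⟨by linarith, hle1 _ _ (by linarith)⟩, rfl⟩ hc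
      have e : φ (x, some i) = Seg f (2 * i) (U * (2 * (i : ℕ) + (2 * q + 1) * x))
          (U * (2 * q + (2 * q + 1) * x)) ∪ Seg f (2 * i + 1) (U * (2 * q + (2 * q + 1) * x))
          (U * (2 * q + 1 + 2 * (i : ℕ) + (2 * q + 1) * x)) := by
        ext w
        constructor
        · rintro ⟨j, a, b, y, hj, hT, h1, h2, h3⟩
          rcases hT with ⟨rfl, rfl, rfl⟩ | ⟨rfl, rfl, rfl⟩
          · exact Or.inl ⟨y, ⟨h1, h2⟩, h3⟩
          · exact Or.inr ⟨y, ⟨h1, h2⟩, h3⟩
        · rintro (⟨y, ⟨h1, h2⟩, h3⟩ | ⟨y, ⟨h1, h2⟩, h3⟩)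
          · exact ⟨_, _, _, y, by omega, Or.inl ⟨rfl, rfl, rfl⟩, h1, h2, h3⟩
          · exact ⟨_, _, _, y, by omega, Or.inr ⟨rfl, rfl, rfl⟩, h1, h2, h3⟩
      rw [e]
      exact s3
  · rintro ⟨x, o⟩ ⟨x', o'⟩ w ⟨j, a, b, y, hj, hT, h1, h2, h3⟩ ⟨j', a', b', y', hj', hT', h1', h2', h3'⟩
    obtain ⟨rfl, rfl⟩ := hinj j j' hj hj' y y' (h3.trans h3'.symm)
    obtain ⟨hx, ho⟩ := T_uniq hj hT hT' (hlt' _ _ (lt_of_lt_of_le h1' h2))
      (hlt' _ _ (lt_of_lt_of_le h1 h2'))
    exact Prod.ext hx ho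
  · have hcen : ∀ x, ∃ a ∈ φ (x, none), ∃ b ∈ φ (x + 1, none), G.Adj a b := by
      intro x
      have hc := hc1 0 hq (2 * q + 1 + (2 * q + 1) * x)
      refine ⟨f 0 (U * (2 * q + 1 + (2 * q + 1) * x)), ?_,
        f 1 (U * (2 * q + 1 + (2 * q + 1) * x) + 1), ?_, by simpa using hc⟩
      · exact ⟨0, _, _, _, by omega, Or.inl ⟨rfl, rfl, rfl⟩, hlt _ _ (by linarith), le_rfl, rfl⟩
      · refine ⟨1, _, _, _, by omega, Or.inr (Or.inr ⟨rfl, rfl, rfl⟩), ?_, ?_, rfl⟩
        · push_cast
          linarith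
        · apply hle1
          have : (0 : ℤ) < q := by exact_mod_cast hq
          change 2 * (q : ℤ) + 1 + (2 * q + 1) * x < 2 * q + (2 * q + 1) * (x + 1)
          linarith
    have hleaf : ∀ x (i : Fin q), ∃ a ∈ φ (x, some i), ∃ b ∈ φ (x + 1, some i), G.Adj a b := by
      intro x i
      have hi := i.2
      have hiq : ((i : ℕ) : ℤ) < q := by exact_mod_cast hi
      have hi0 : (0 : ℤ) ≤ ((i : ℕ) : ℤ) := Int.natCast_nonneg _
      have hc := hc2 i hi (2 * q + 1 + 2 * (i : ℕ) + (2 * q + 1) * x)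
      refine ⟨f (2 * i + 1) (U * (2 * q + 1 + 2 * (i : ℕ) + (2 * q + 1) * x)), ?_,
        f (2 * i) (U * (2 * q + 1 + 2 * (i : ℕ) + (2 * q + 1) * x) + 1), ?_, hc⟩
      · exact ⟨_, _, _, _, by omega, Or.inr ⟨rfl, rfl, rfl⟩, hlt _ _ (by linarith), le_rfl, rfl⟩
      · refine ⟨_, _, _, _, by omega, Or.inl ⟨rfl, rfl, rfl⟩, ?_, ?_, rfl⟩
        · change U * (2 * ((i : ℕ) : ℤ) + (2 * q + 1) * (x + 1)) < _
          rw [show 2 * ((i : ℕ) : ℤ) + (2 * (q : ℤ) + 1) * (x + 1)
            = 2 * q + 1 + 2 * ((i : ℕ) : ℤ) + (2 * q + 1) * x by ring]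
          linarith
        · apply hle1
          change 2 * (q : ℤ) + 1 + 2 * ((i : ℕ) : ℤ) + (2 * q + 1) * x
            < 2 * q + (2 * q + 1) * (x + 1)
          linarith
    have hspoke : ∀ x (i : Fin q), ∃ a ∈ φ (x, none), ∃ b ∈ φ (x, some i), G.Adj a b := by
      intro x i
      have hi := i.2
      have hiq : ((i : ℕ) : ℤ) < q := by exact_mod_cast hi
      have hi0 : (0 : ℤ) ≤ ((i : ℕ) : ℤ) := Int.natCast_nonneg _
      have hc := hv (2 * i + 1) (by omega) (U * (2 * q + (2 * q + 1) * x))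
      refine ⟨_, ?_, _, ?_, hc⟩
      · refine ⟨2 * i + 1, _, _, _, by omega, Or.inr (Or.inr ⟨by omega, rfl, rfl⟩), ?_, le_rfl,
          rfl⟩
        apply hlt
        push_cast
        change 2 * ((i : ℕ) : ℤ) + 1 - 1 + (2 * q + 1) * x < 2 * q + (2 * q + 1) * x
        linarith
      · exact ⟨2 * i + 1, _, _, _, by omega, Or.inr ⟨rfl, rfl, rfl⟩, by linarith,
          hle1 _ _ (by linarith), rfl⟩
    rintro ⟨x, o⟩ ⟨x', o'⟩ hadj
    unfold StarZ at hadj
    rw [SimpleGraph.fromRel_adj] at hadj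
    obtain ⟨hne, hadj⟩ := hadj
    have one : ∀ (x x' : ℤ) (o o' : Option (Fin q)), (x, o) ≠ (x', o') →
        ((o = o' ∧ x' = x + 1) ∨ (x = x' ∧ o = none)) →
        ∃ a ∈ φ (x, o), ∃ b ∈ φ (x', o'), G.Adj a b := by
      intro x x' o o' hne h
      rcases h with ⟨rfl, rfl⟩ | ⟨rfl, rfl⟩
      · cases o with
        | none => exact hcen x
        | some i => exact hleaf x i
      · cases o' with
        | none => exact absurd rfl hne
        | some i => exact hspoke x i
    rcases hadj with h | h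
    · exact one x x' o o' hne h
    · obtain ⟨a, ha, b, hb, hab⟩ := one x' x o' o hne.symm h
      exact ⟨b, hb, a, ha, hab.symm⟩

end Pool.Agent.Helper48.NW
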