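import Pool.Agent.Helper61.NW.Goals
import Pool.Agent.Helper48.NW.Ladder

/-!
# NW-CRX
-/

set_option autoImplicit false

namespace Pool.Agent.Helper48.NW

open Pool.Agent.Helper52.Wq2 Pool.Agent.Helper61.NW

universe u

section

variable {Γ : Type u} [Group Γ] {S : Set Γ} {h : Γ → ℤ} {s : Γ} {H n m : ℕ}

/-- A crossing between two lines. -/
def CR (S : Set Γ) (h : Γ → ℤ) (s : Γ) (H : ℕ) (A B : Γ ⧸ Subgroup.zpowers s) : Prop :=
  ∃ a b : Γ, (a : Γ ⧸ Subgroup.zpowers s) = A ∧ (b : Γ ⧸ Subgroup.zpowers s) = B ∧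
    h b = h a + H ∧ a⁻¹ * b ∈ S ∧ (a * s)⁻¹ * (b * s⁻¹) ∈ S

theorem h_one (hT : Two S h s H n m) : h 1 = 0 := by
  have := hT.hom 1 1
  rw [mul_one] at this
  linarith

theorem h_inv (hT : Two S h s H n m) (g : Γ) : h g⁻¹ = - h g := by
  have h1 := hT.hom g g⁻¹
  rw [mul_inv_cancel, h_one hT] at h1
  linarith

theorem h_zpow (hT : Two S h s H n m) (k : ℤ) : h (s ^ k) = k * H := by
  induction k using Int.induction_on with
  | zero => simp [h_one hT]
  | succ k ih =>
    rw [zpow_add, zpow_one, hT.hom, ih, hT.Hs]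
    ring
  | pred k ih =>
    rw [zpow_sub, zpow_one, hT.hom, ih, h_inv hT, hT.Hs]
    ring

theorem coset_mul_zpow (g : Γ) (k : ℤ) :
    ((g * s ^ k : Γ) : Γ ⧸ Subgroup.zpowers s) = (g : Γ ⧸ Subgroup.zpowers s) := by
  rw [QuotientGroup.eq]
  refine ⟨-k, ?_⟩
  simp

theorem coset_eq {g g' : Γ} (e : (g : Γ ⧸ Subgroup.zpowers s) = g') : ∃ k : ℤ, g' = g * s ^ k := by
  rw [QuotientGroup.eq] at e
  obtain ⟨k, hk⟩ := e
  refine ⟨k, ?_⟩
  change s ^ k = g⁻¹ * g' at hk
  rw [hk, mul_inv_cancel_left]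

theorem CR.symm (hT : Two S h s H n m) {A B : Γ ⧸ Subgroup.zpowers s} (hc : CR S h s H A B) :
    CR S h s H B A := by
  obtain ⟨a, b, ha, hb, h1, h2, h3⟩ := hc
  refine ⟨b * s⁻¹, a * s, ?_, ?_, ?_, ?_, ?_⟩
  · have := coset_mul_zpow (s := s) b (-1)
    rw [zpow_neg_one] at this
    rw [this, hb]
  · have := coset_mul_zpow (s := s) a 1
    rw [zpow_one] at this
    rw [this, ha]
  · rw [hT.hom, hT.hom, h_inv hT, hT.Hs, h1]
    ring
  · have := hT.gen.2.1 _ h3
    simpa using this
  · have := hT.gen.2.1 _ h2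
    simpa [mul_assoc] using this

theorem CR.mul (hT : Two S h s H n m) (g : Γ) {A B : Γ ⧸ Subgroup.zpowers s}
    (hc : CR S h s H A B) : CR S h s H (g • A) (g • B) := by
  obtain ⟨a, b, ha, hb, h1, h2, h3⟩ := hc
  refine ⟨g * a, g * b, ?_, ?_, ?_, ?_, ?_⟩
  · rw [← ha]; rfl
  · rw [← hb]; rfl
  · rw [hT.hom, hT.hom, h1]
    ring
  · simpa [mul_assoc] using h2
  · simpa [mul_assoc] using h3

theorem Ln_mul (hT : Two S h s H n m) (g : Γ) {A B : Γ ⧸ Subgroup.zpowers s}
    (hab : (Ln S s).Adj A B) : (Ln S s).Adj (g • A) (g • B) := by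
  unfold Ln at hab ⊢
  rw [SimpleGraph.fromRel_adj] at hab ⊢
  obtain ⟨hne, hab⟩ := hab
  refine ⟨fun e => hne (MulAction.injective g e), ?_⟩
  have one : ∀ A B : Γ ⧸ Subgroup.zpowers s,
      (∃ g t : Γ, t ∈ S ∧ (g : Γ ⧸ Subgroup.zpowers s) = A ∧
        ((g * t : Γ) : Γ ⧸ Subgroup.zpowers s) = B) →
      (∃ g' t : Γ, t ∈ S ∧ (g' : Γ ⧸ Subgroup.zpowers s) = g • A ∧
        ((g' * t : Γ) : Γ ⧸ Subgroup.zpowers s) = g • B) := by
    rintro A B ⟨x, t, ht, hA, hB⟩
    refine ⟨g * x, t, ht, ?_, ?_⟩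
    · rw [← hA]; rfl
    · rw [← hB, mul_assoc]; rfl
  rcases hab with h | h
  · exact Or.inl (one A B h)
  · exact Or.inr (one B A h)

/-- Edges between two adjacent lines. -/
theorem Ln_edge (hT : Two S h s H n m) {A B : Γ ⧸ Subgroup.zpowers s}
    (hab : (Ln S s).Adj A B) : ∃ a b : Γ, (a : Γ ⧸ Subgroup.zpowers s) = A ∧
      (b : Γ ⧸ Subgroup.zpowers s) = B ∧ a⁻¹ * b ∈ S := by
  unfold Ln at hab
  rw [SimpleGraph.fromRel_adj] at hab
  obtain ⟨-, ⟨g, t, ht, hA, hB⟩ | ⟨g, t, ht, hA, hB⟩⟩ := hab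
  · exact ⟨g, g * t, hA, hB, by simpa using ht⟩
  · exact ⟨g * t, g, hB, hA, by simpa using hT.gen.2.1 _ ht⟩

end

theorem crx : CrxStmt.{u} := by
  intro Γ _ S h s H n m hT hn e he hcr q0 hq0
  -- the case of no leaves
  obtain ⟨q, hq, hqn, hred⟩ : ∃ q : ℕ, 0 < q ∧ 2 * q ≤ n ∧
      (Mn (StarZ (Fin q)) (cay S) → Mn (StarZ (Fin q0)) (cay S)) := by
    rcases Nat.eq_zero_or_pos q0 with h0 | h0
    · subst h0
      refine ⟨1, one_pos, by omega, fun h1 => ?_⟩
      refine Mn.trans (Mn.of_inj (fun v : ℤ × Option (Fin 0) => ((v.1, none) : ℤ × Option (Fin 1)))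
        ?_ ?_) h1
      · rintro ⟨x, o⟩ ⟨x', o'⟩ hh
        cases o with
        | none =>
          cases o' with
          | none =>
            have := congrArg Prod.fst hh
            exact Prod.ext this rfl
          | some i => exact i.elim0
        | some i => exact i.elim0
      · rintro ⟨x, o⟩ ⟨x', o'⟩ hh
        cases o with
        | none =>
          cases o' with
          | none =>
            unfold StarZ at hh ⊢
            rw [SimpleGraph.fromRel_adj] at hh ⊢
            obtain ⟨h1, h2⟩ := hh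
            refine ⟨?_, ?_⟩
            · intro hc
              apply h1
              have := congrArg Prod.fst hc
              exact Prod.ext this rfl
            · rcases h2 with (⟨_, h2⟩ | ⟨h2, _⟩) | (⟨_, h2⟩ | ⟨h2, _⟩)
              · exact Or.inl (Or.inl ⟨rfl, h2⟩)
              · exact absurd (Prod.ext h2 rfl) h1
              · exact Or.inr (Or.inl ⟨rfl, h2⟩)
              · exact absurd (Prod.ext h2.symm rfl) h1
          | some i => exact i.elim0
        | some i => exact i.elim0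
    · exact ⟨q0, h0, by omega, id⟩
  apply hred
  have : NeZero n := ⟨by omega⟩
  have hS := hT.gen
  have hHpos : (0 : ℤ) < H := by exact_mod_cast hT.Hpos
  -- crossings in terms of lines
  have hcrs : ∀ j : ZMod n, Crs S h s H n e j ↔ CR S h s H (e.symm j) (e.symm (j + 1)) := by
    intro j
    constructor
    · rintro ⟨a, b, ha, hb, h1⟩
      exact ⟨a, b, by rw [← ha, Equiv.symm_apply_apply], by rw [← hb, Equiv.symm_apply_apply], h1⟩
    · rintro ⟨a, b, ha, hb, h1⟩
      exact ⟨a, b, by rw [ha, Equiv.apply_symm_apply], by rw [hb, Equiv.apply_symm_apply], h1⟩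
  have hone : (1 : ZMod n) ≠ 0 := by
    have : Fact (1 < n) := ⟨by omega⟩
    exact one_ne_zero
  have htwo : (2 : ZMod n) ≠ 0 := by
    intro h2
    have h3 : ((2 : ℕ) : ZMod n) = 0 := by exact_mod_cast h2
    rw [ZMod.natCast_eq_zero_iff] at h3
    have := Nat.le_of_dvd (by norm_num) h3
    omega
  -- left multiplication moves any line to any line
  have htrans : ∀ A B : Γ ⧸ Subgroup.zpowers s, ∃ g : Γ, g • A = B := by
    intro A B
    obtain ⟨a, rfl⟩ := QuotientGroup.mk_surjective A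
    obtain ⟨b, rfl⟩ := QuotientGroup.mk_surjective B
    refine ⟨b * a⁻¹, ?_⟩
    change (((b * a⁻¹) * a : Γ) : Γ ⧸ Subgroup.zpowers s) = b
    rw [inv_mul_cancel_right]
  let gap : ZMod n → Prop := fun j => Crs S h s H n e j
  -- neighbours
  have hnb : ∀ (g : Γ) (j : ZMod n) (ε : ZMod n), (ε = 1 ∨ ε = -1) →
      e (g • e.symm (j + ε)) = e (g • e.symm j) + 1 ∨
      e (g • e.symm (j + ε)) = e (g • e.symm j) - 1 := by
    intro g j ε hε
    have h1 : (Ln S s).Adj (e.symm j) (e.symm (j + ε)) := by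
      rw [he]
      simp only [Equiv.apply_symm_apply]
      rcases hε with rfl | rfl
      · exact Or.inl rfl
      · right
        ring
    have h2 := Ln_mul hT g h1
    rw [he] at h2
    rcases h2 with h2 | h2
    · exact Or.inl h2
    · right
      rw [h2]
      ring
  -- a crossing from `j` to a neighbour
  have hgapCR : ∀ j k : ZMod n, CR S h s H (e.symm j) (e.symm k) → (k = j + 1 → gap j) ∧
      (k = j - 1 → gap (j - 1)) := by
    intro j k hc
    constructor
    · rintro rfl
      exact (hcrs j).2 hc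
    · rintro rfl
      apply (hcrs (j - 1)).2
      rw [sub_add_cancel]
      exact hc.symm hT
  have hcover : ∀ j, gap j ∨ gap (j - 1) := by
    obtain ⟨j₀, hj₀⟩ := hcr
    intro j
    obtain ⟨g, hg⟩ := htrans (e.symm j₀) (e.symm j)
    have hc := ((hcrs j₀).1 hj₀).mul hT g
    have h1 := hnb g j₀ 1 (Or.inl rfl)
    have h2 : e (g • e.symm j₀) = j := by rw [hg, Equiv.apply_symm_apply]
    rw [h2] at h1
    rw [hg] at hc
    have h3 : g • e.symm (j₀ + 1) = e.symm (e (g • e.symm (j₀ + 1))) := by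
      rw [Equiv.symm_apply_apply]
    rw [h3] at hc
    rcases h1 with h1 | h1
    · exact Or.inl ((hgapCR _ _ hc).1 h1)
    · exact Or.inr ((hgapCR _ _ hc).2 h1)
  have hboth : ∀ j, gap j → gap (j - 1) → ∀ j', gap j' := by
    intro j h1 h2 j'
    obtain ⟨g, hg⟩ := htrans (e.symm j) (e.symm j')
    have hc1 := ((hcrs j).1 h1).mul hT g
    have hc2 := (((hcrs (j - 1)).1 h2).symm hT).mul hT g
    rw [sub_add_cancel] at hc2
    have n1 := hnb g j 1 (Or.inl rfl)
    have n2 := hnb g j (-1) (Or.inr rfl)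
    rw [← sub_eq_add_neg] at n2
    have h2 : e (g • e.symm j) = j' := by rw [hg, Equiv.apply_symm_apply]
    rw [h2] at n1 n2
    rw [hg] at hc1 hc2
    have h3 : g • e.symm (j + 1) = e.symm (e (g • e.symm (j + 1))) := by
      rw [Equiv.symm_apply_apply]
    have h4 : g • e.symm (j - 1) = e.symm (e (g • e.symm (j - 1))) := by
      rw [Equiv.symm_apply_apply]
    have hne : e (g • e.symm (j + 1)) ≠ e (g • e.symm (j - 1)) := by
      intro hh
      have h5 := MulAction.injective g (e.injective hh)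
      have h6 := e.symm.injective h5
      apply htwo
      have : (2 : ZMod n) = (j + 1) - (j - 1) := by ring
      rw [this, h6, sub_self]
    rw [h3] at hc1
    rw [h4] at hc2
    rcases n1 with n1 | n1
    · exact (hgapCR _ _ hc1).1 n1
    · rcases n2 with n2 | n2
      · exact (hgapCR _ _ hc2).1 n2
      · exact absurd (n1.trans n2.symm) hne
  -- a good numbering
  obtain ⟨c, hc⟩ : ∃ c : ZMod n, ∀ i : ℕ, gap (c + 2 * (i : ZMod n)) := by
    by_cases hall : ∀ j, gap j
    · exact ⟨0, fun i => hall _⟩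
    · push Not at hall
      obtain ⟨j₁, hj₁⟩ := hall
      have hnot : ∀ j, gap (j - 1) → ¬ gap j := fun j h1 h2 => hj₁ (hboth j h2 h1 j₁)
      refine ⟨j₁ + 1, fun i => ?_⟩
      induction i with
      | zero =>
        have := hcover (j₁ + 1)
        rw [add_sub_cancel_right] at this
        simpa using this.resolve_right hj₁
      | succ i ih =>
        have h1 : ¬ gap (j₁ + 1 + 2 * (i : ZMod n) + 1) := by
          apply hnot
          rw [add_sub_cancel_right]
          exact ih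
        have h2 := hcover (j₁ + 1 + 2 * (i : ZMod n) + 1 + 1)
        rw [add_sub_cancel_right] at h2
        have h3 := h2.resolve_right h1
        have e1 : j₁ + 1 + 2 * ((i + 1 : ℕ) : ZMod n) = j₁ + 1 + 2 * (i : ZMod n) + 1 + 1 := by
          push_cast
          ring
        rw [e1]
        exact h3
  choose a b ha hb hab h2 h3 using hc
  -- the lines
  let f : ℕ → ℤ → Γ := fun j y => if j % 2 = 0 then a (j / 2) * s ^ y else b (j / 2) * s ^ (y - 1)
  have fe : ∀ i y, f (2 * i) y = a i * s ^ y := by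
    intro i y
    change (if (2 * i) % 2 = 0 then a (2 * i / 2) * s ^ y else b (2 * i / 2) * s ^ (y - 1)) = _
    rw [if_pos (by omega), Nat.mul_div_cancel_left i (by norm_num)]
  have fo : ∀ i y, f (2 * i + 1) y = b i * s ^ (y - 1) := by
    intro i y
    change (if (2 * i + 1) % 2 = 0 then a ((2 * i + 1) / 2) * s ^ y
      else b ((2 * i + 1) / 2) * s ^ (y - 1)) = _
    rw [if_neg (by omega), show (2 * i + 1) / 2 = i by omega]
  have hline : ∀ j y, e (f j y : Γ ⧸ Subgroup.zpowers s) = c + (j : ZMod n) := by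
    intro j y
    rcases Nat.even_or_odd' j with ⟨i, rfl | rfl⟩
    · rw [fe, coset_mul_zpow, ha]
      push_cast
      ring
    · rw [fo, coset_mul_zpow, hb]
      push_cast
      ring
  have hstep : ∀ j y, f j (y + 1) = f j y * s := by
    intro j y
    rcases Nat.even_or_odd' j with ⟨i, rfl | rfl⟩
    · rw [fe, fe, zpow_add_one, mul_assoc]
    · rw [fo, fo, mul_assoc, ← zpow_add_one]
      congr 2
      ring
  have hshift : ∀ j y k, f j (y + k) = f j y * s ^ k := by
    intro j y k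
    rcases Nat.even_or_odd' j with ⟨i, rfl | rfl⟩
    · rw [fe, fe, zpow_add, mul_assoc]
    · rw [fo, fo, mul_assoc, ← zpow_add]
      congr 2
      ring
  -- multiples of `m`
  have hcen : ∀ (k : ℤ) (g : Γ), g * s ^ ((m : ℤ) * k) = s ^ ((m : ℤ) * k) * g := by
    intro k g
    have h1 : Commute g (s ^ (m : ℤ)) := by
      have := hT.cen g
      rw [zpow_natCast]
      exact this
    have := h1.zpow_right k
    rw [← zpow_mul] at this
    exact this
  have hadjshift : ∀ (k : ℤ) (x y : Γ), (cay S).Adj x y →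
      (cay S).Adj (x * s ^ ((m : ℤ) * k)) (y * s ^ ((m : ℤ) * k)) := by
    intro k x y hxy
    rw [cay_adj hS] at hxy ⊢
    rw [hcen k x, hcen k y]
    simpa [mul_assoc] using hxy
  -- the rungs
  have hrung : ∀ i, ∃ σ τ : ℤ, (cay S).Adj (f (2 * i + 1) σ) (f (2 * i + 2) τ) := by
    intro i
    have h1 : (Ln S s).Adj (f (2 * i + 1) 0 : Γ ⧸ Subgroup.zpowers s)
        (f (2 * i + 2) 0 : Γ ⧸ Subgroup.zpowers s) := by
      rw [he]
      left
      rw [hline, hline]
      push_cast
      ring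
    obtain ⟨x, y, hx, hy, hxy⟩ := Ln_edge hT h1
    obtain ⟨k, hk⟩ := coset_eq hx.symm
    obtain ⟨l, hl⟩ := coset_eq hy.symm
    refine ⟨k, l, ?_⟩
    have e1 := hshift (2 * i + 1) 0 k
    have e2 := hshift (2 * i + 2) 0 l
    rw [zero_add] at e1 e2
    rw [e1, e2, ← hk, ← hl, cay_adj hS]
    exact hxy
  choose σ τ hστ using hrung
  -- the unit
  obtain ⟨C, hCpos, hC⟩ : ∃ C : ℤ, 0 < C ∧ ∀ i, i < q → |σ i| < C ∧ |τ i| < C := by
    refine ⟨∑ i ∈ Finset.range q, (|σ i| + |τ i|) + 1, ?_, ?_⟩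
    · have : 0 ≤ ∑ i ∈ Finset.range q, (|σ i| + |τ i|) :=
        Finset.sum_nonneg fun i _ => by positivity
      linarith
    · intro i hi
      have h1 : |σ i| + |τ i| ≤ ∑ k ∈ Finset.range q, (|σ k| + |τ k|) :=
        Finset.single_le_sum (f := fun k => |σ k| + |τ k|) (s := Finset.range q)
          (fun k _ => by positivity) (Finset.mem_range.2 hi)
      have h4 := abs_nonneg (σ i)
      have h5 := abs_nonneg (τ i)
      constructor <;> linarith
  have hm1 : (1 : ℤ) ≤ m := by exact_mod_cast hT.mpos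
  refine star_of_ladder (cay S) q hq f (m * C) (by positivity) ?_ ?_ ?_ ?_ ?_
  · intro j j' hj hj' y y' hjy
    have h4 := hline j y
    rw [hjy, hline j' y'] at h4
    have h5 : (j' : ZMod n) = (j : ZMod n) := add_left_cancel h4
    have h6 : j' = j := by
      rw [ZMod.natCast_eq_natCast_iff'] at h5
      rwa [Nat.mod_eq_of_lt (by omega), Nat.mod_eq_of_lt (by omega)] at h5
    subst h6
    refine ⟨rfl, ?_⟩
    have e1 := hshift j' 0 y
    have e2 := hshift j' 0 y'
    rw [zero_add] at e1 e2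
    rw [e1, e2] at hjy
    have h7 := congrArg h (mul_left_cancel hjy)
    rw [h_zpow hT, h_zpow hT] at h7
    exact mul_right_cancel₀ hHpos.ne' h7
  · intro j _ y
    rw [hstep]
    exact cay_adj_mul hS _ hT.hs
  · intro i _ k
    have h4 : (cay S).Adj (f (2 * i) 0) (f (2 * i + 1) 1) := by
      rw [fe, fo, cay_adj hS]
      simpa using h2 i
    have h5 := hadjshift (C * k) _ _ h4
    rw [← hshift, ← hshift] at h5
    have e1 : (m : ℤ) * C * k = 0 + m * (C * k) := by ring
    have e2 : (m : ℤ) * C * k + 1 = 1 + m * (C * k) := by ring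
    rw [e2, e1]
    exact h5
  · intro i _ k
    have h4 : (cay S).Adj (f (2 * i + 1) 0) (f (2 * i) 1) := by
      rw [fe, fo]
      apply SimpleGraph.Adj.symm
      rw [cay_adj hS]
      simpa using h3 i
    have h5 := hadjshift (C * k) _ _ h4
    rw [← hshift, ← hshift] at h5
    have e1 : (m : ℤ) * C * k = 0 + m * (C * k) := by ring
    have e2 : (m : ℤ) * C * k + 1 = 1 + m * (C * k) := by ring
    rw [e2, e1]
    exact h5
  · intro i hi
    obtain ⟨h4, h5⟩ := hC i (by omega)
    have hmC : C ≤ m * C := by nlinarith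
    refine ⟨σ i, τ i, by linarith, by linarith, fun k => ?_⟩
    have h6 := hadjshift (C * k) _ _ (hστ i)
    rw [← hshift, ← hshift] at h6
    rw [show (m : ℤ) * C * k = m * (C * k) by ring]
    exact h6

end Pool.Agent.Helper48.NW
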