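import Pool.Agent.Helper61.NW.Goals2
import Pool.Agent.Helper48.NW.Ladder

/-!
# NW+ LCX
-/

set_option autoImplicit false

namespace Pool.Agent.Helper48.NW

open Pool.Agent.Helper52.Wq2 Pool.Agent.Helper61.NW

section

variable {n m : ℕ} {G : SimpleGraph (ℤ × Fin n)}

/-- A crossing between two lines. -/
def LR (G : SimpleGraph (ℤ × Fin n)) (u v : Fin n) : Prop :=
  ∃ a : ℤ, G.Adj (a, u) (a + 1, v) ∧ G.Adj (a + 1, u) (a, v)

theorem LR.symm {u v : Fin n} (h : LR G u v) : LR G v u := by
  obtain ⟨a, h1, h2⟩ := h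
  exact ⟨a, h2.symm, h1.symm⟩

theorem LR_of (hL : Lsys n m G) {u v : Fin n} {a a' b b' : ℤ} (h1 : a < a') (h2 : b' < b)
    (h3 : G.Adj (a, u) (b, v)) (h4 : G.Adj (a', u) (b', v)) : LR G u v := by
  have h5 := hL.near _ _ _ _ h3
  have h6 := hL.near _ _ _ _ h4
  rw [abs_le] at h5 h6
  obtain rfl : a' = a + 1 := by omega
  obtain rfl : b = a + 1 := by omega
  obtain rfl : b' = a := by omega
  exact ⟨b', h3, h4⟩

theorem Lg_edge {u v : Fin n} (h : (Lg G).Adj u v) : ∃ a b : ℤ, G.Adj (a, u) (b, v) := by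
  unfold Lg at h
  rw [SimpleGraph.fromRel_adj] at h
  obtain ⟨-, ⟨a, b, h⟩ | ⟨a, b, h⟩⟩ := h
  · exact ⟨a, b, h⟩
  · exact ⟨b, a, h.symm⟩

theorem Lg_of {u v : Fin n} (hne : u ≠ v) {a b : ℤ} (h : G.Adj (a, u) (b, v)) :
    (Lg G).Adj u v := by
  unfold Lg
  rw [SimpleGraph.fromRel_adj]
  exact ⟨hne, Or.inl ⟨a, b, h⟩⟩

theorem per_all (hL : Lsys n m G) {u v : Fin n} {a b : ℤ} (h : G.Adj (a, u) (b, v)) (k : ℤ) :
    G.Adj (a + m * k, u) (b + m * k, v) := by
  induction k using Int.induction_on with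
  | zero => simpa using h
  | succ k ih =>
    have := (hL.per _ _ _ _).1 ih
    have e1 : a + m * ((k : ℤ) + 1) = a + m * k + m := by ring
    have e2 : b + m * ((k : ℤ) + 1) = b + m * k + m := by ring
    rw [e1, e2]
    exact this
  | pred k ih =>
    apply (hL.per _ _ _ _).2
    have e1 : a + m * (-(k : ℤ) - 1) + m = a + m * (-(k : ℤ)) := by ring
    have e2 : b + m * (-(k : ℤ) - 1) + m = b + m * (-(k : ℤ)) := by ring
    rw [e1, e2]
    exact ih

/-- Any line is moved to any line. -/
theorem ltrans (hL : Lsys n m G) (i j : Fin n) : ∃ τ : Equiv.Perm (Fin n), τ i = j ∧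
    (∀ u v, LR G u v → LR G (τ u) (τ v)) ∧ (∀ u v, (Lg G).Adj u v → (Lg G).Adj (τ u) (τ v)) := by
  obtain ⟨f, τ, e, c, he, hij, hf⟩ := hL.trans i j
  have hadj : ∀ a b u v, G.Adj (a, u) (b, v) → G.Adj (e * a + c u, τ u) (e * b + c v, τ v) := by
    intro a b u v h
    have := f.map_rel_iff.2 h
    rwa [hf, hf] at this
  refine ⟨τ, hij, ?_, ?_⟩
  · rintro u v ⟨a, h1, h2⟩
    have h3 := hadj _ _ _ _ h1
    have h4 := hadj _ _ _ _ h2
    rcases he with rfl | rfl
    · exact LR_of hL (by linarith) (by linarith) h3 h4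
    · exact LR_of hL (by linarith) (by linarith) h4 h3
  · intro u v h
    obtain ⟨a, b, h1⟩ := Lg_edge h
    exact Lg_of (fun hh => h.ne (τ.injective hh)) (hadj _ _ _ _ h1)

end

theorem lcx : LcxStmt := by
  intro n m G hL hn e he hcr q0 hq0
  -- the case of no leaves
  obtain ⟨q, hq, hqn, hred⟩ : ∃ q : ℕ, 0 < q ∧ 2 * q ≤ n ∧
      (Mn (StarZ (Fin q)) G → Mn (StarZ (Fin q0)) G) := by
    rcases Nat.eq_zero_or_pos q0 with h0 | h0
    · subst h0
      refine ⟨1, one_pos, by omega, fun h1 => ?_⟩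
      refine Mn.trans (Mn.of_inj (fun v : ℤ × Option (Fin 0) => ((v.1, none) : ℤ × Option (Fin 1)))
        ?_ ?_) h1
      · rintro ⟨x, o⟩ ⟨x', o'⟩ hh
        cases o with
        | none =>
          cases o' with
          | none =>
            have := congrArg Prod.fst hh
            exact Prod.ext this rfl
          | some i => exact i.elim0
        | some i => exact i.elim0
      · rintro ⟨x, o⟩ ⟨x', o'⟩ hh
        cases o with
        | none =>
          cases o' with
          | none =>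
            unfold StarZ at hh ⊢
            rw [SimpleGraph.fromRel_adj] at hh ⊢
            obtain ⟨h1, h2⟩ := hh
            refine ⟨?_, ?_⟩
            · intro hc
              apply h1
              have := congrArg Prod.fst hc
              exact Prod.ext this rfl
            · rcases h2 with (⟨_, h2⟩ | ⟨h2, _⟩) | (⟨_, h2⟩ | ⟨h2, _⟩)
              · exact Or.inl (Or.inl ⟨rfl, h2⟩)
              · exact absurd (Prod.ext h2 rfl) h1
              · exact Or.inr (Or.inl ⟨rfl, h2⟩)
              · exact absurd (Prod.ext h2.symm rfl) h1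
          | some i => exact i.elim0
        | some i => exact i.elim0
    · exact ⟨q0, h0, by omega, id⟩
  apply hred
  have : NeZero n := ⟨by omega⟩
  -- crossings in terms of lines
  have hcrs : ∀ j : ZMod n, LCrs G e j ↔ LR G (e.symm j) (e.symm (j + 1)) := by
    intro j
    constructor
    · rintro ⟨a, u, v, hu, hv, h1, h2⟩
      have eu : e.symm j = u := by rw [← hu, Equiv.symm_apply_apply]
      have ev : e.symm (j + 1) = v := by rw [← hv, Equiv.symm_apply_apply]
      refine ⟨a, ?_, ?_⟩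
      · rw [eu, ev]
        exact h1
      · rw [eu, ev]
        exact h2
    · rintro ⟨a, h1, h2⟩
      exact ⟨a, e.symm j, e.symm (j + 1), Equiv.apply_symm_apply _ _, Equiv.apply_symm_apply _ _,
        h1, h2⟩
  have htwo : (2 : ZMod n) ≠ 0 := by
    intro h2
    have h3 : ((2 : ℕ) : ZMod n) = 0 := by exact_mod_cast h2
    rw [ZMod.natCast_eq_zero_iff] at h3
    have := Nat.le_of_dvd (by norm_num) h3
    omega
  let gap : ZMod n → Prop := fun j => LCrs G e j
  -- neighbours
  have hnb : ∀ (g : Equiv.Perm (Fin n)), (∀ u v, (Lg G).Adj u v → (Lg G).Adj (g u) (g v)) →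
      ∀ (j : ZMod n) (ε : ZMod n), (ε = 1 ∨ ε = -1) →
      e (g (e.symm (j + ε))) = e (g (e.symm j)) + 1 ∨
      e (g (e.symm (j + ε))) = e (g (e.symm j)) - 1 := by
    intro g hg j ε hε
    have h1 : (Lg G).Adj (e.symm j) (e.symm (j + ε)) := by
      rw [he]
      simp only [Equiv.apply_symm_apply]
      rcases hε with rfl | rfl
      · exact Or.inl rfl
      · right
        ring
    have h2 := hg _ _ h1
    rw [he] at h2
    rcases h2 with h2 | h2
    · exact Or.inl h2
    · right
      rw [h2]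
      ring
  -- a crossing from `j` to a neighbour
  have hgapCR : ∀ j k : ZMod n, LR G (e.symm j) (e.symm k) → (k = j + 1 → gap j) ∧
      (k = j - 1 → gap (j - 1)) := by
    intro j k hc
    constructor
    · rintro rfl
      exact (hcrs j).2 hc
    · rintro rfl
      apply (hcrs (j - 1)).2
      rw [sub_add_cancel]
      exact hc.symm
  have hcover : ∀ j, gap j ∨ gap (j - 1) := by
    obtain ⟨j₀, hj₀⟩ := hcr
    intro j
    obtain ⟨g, hg, hg1, hg2⟩ := ltrans hL (e.symm j₀) (e.symm j)
    have hc := hg1 _ _ ((hcrs j₀).1 hj₀)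
    have h1 := hnb g hg2 j₀ 1 (Or.inl rfl)
    have h2 : e (g (e.symm j₀)) = j := by rw [hg, Equiv.apply_symm_apply]
    rw [h2] at h1
    rw [hg] at hc
    have h3 : g (e.symm (j₀ + 1)) = e.symm (e (g (e.symm (j₀ + 1)))) := by
      rw [Equiv.symm_apply_apply]
    rw [h3] at hc
    rcases h1 with h1 | h1
    · exact Or.inl ((hgapCR _ _ hc).1 h1)
    · exact Or.inr ((hgapCR _ _ hc).2 h1)
  have hboth : ∀ j, gap j → gap (j - 1) → ∀ j', gap j' := by
    intro j h1 h2 j'
    obtain ⟨g, hg, hg1, hg2⟩ := ltrans hL (e.symm j) (e.symm j')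
    have hc1 := hg1 _ _ ((hcrs j).1 h1)
    have hc2 := hg1 _ _ (((hcrs (j - 1)).1 h2).symm)
    rw [sub_add_cancel] at hc2
    have n1 := hnb g hg2 j 1 (Or.inl rfl)
    have n2 := hnb g hg2 j (-1) (Or.inr rfl)
    rw [← sub_eq_add_neg] at n2
    have h2 : e (g (e.symm j)) = j' := by rw [hg, Equiv.apply_symm_apply]
    rw [h2] at n1 n2
    rw [hg] at hc1 hc2
    have h3 : g (e.symm (j + 1)) = e.symm (e (g (e.symm (j + 1)))) := by
      rw [Equiv.symm_apply_apply]
    have h4 : g (e.symm (j - 1)) = e.symm (e (g (e.symm (j - 1)))) := by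
      rw [Equiv.symm_apply_apply]
    have hne : e (g (e.symm (j + 1))) ≠ e (g (e.symm (j - 1))) := by
      intro hh
      have h5 := g.injective (e.injective hh)
      have h6 := e.symm.injective h5
      apply htwo
      have : (2 : ZMod n) = (j + 1) - (j - 1) := by ring
      rw [this, h6, sub_self]
    rw [h3] at hc1
    rw [h4] at hc2
    rcases n1 with n1 | n1
    · exact (hgapCR _ _ hc1).1 n1
    · rcases n2 with n2 | n2
      · exact (hgapCR _ _ hc2).1 n2
      · exact absurd (n1.trans n2.symm) hne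
  -- a good numbering
  obtain ⟨c, hc⟩ : ∃ c : ZMod n, ∀ i : ℕ, gap (c + 2 * (i : ZMod n)) := by
    by_cases hall : ∀ j, gap j
    · exact ⟨0, fun i => hall _⟩
    · push Not at hall
      obtain ⟨j₁, hj₁⟩ := hall
      have hnot : ∀ j, gap (j - 1) → ¬ gap j := fun j h1 h2 => hj₁ (hboth j h2 h1 j₁)
      refine ⟨j₁ + 1, fun i => ?_⟩
      induction i with
      | zero =>
        have := hcover (j₁ + 1)
        rw [add_sub_cancel_right] at this
        simpa using this.resolve_right hj₁
      | succ i ih =>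
        have h1 : ¬ gap (j₁ + 1 + 2 * (i : ZMod n) + 1) := by
          apply hnot
          rw [add_sub_cancel_right]
          exact ih
        have h2 := hcover (j₁ + 1 + 2 * (i : ZMod n) + 1 + 1)
        rw [add_sub_cancel_right] at h2
        have h3 := h2.resolve_right h1
        have e1 : j₁ + 1 + 2 * ((i + 1 : ℕ) : ZMod n) = j₁ + 1 + 2 * (i : ZMod n) + 1 + 1 := by
          push_cast
          ring
        rw [e1]
        exact h3
  choose a u v hu hv h2 h3 using hc
  -- the lines
  let l : ℕ → Fin n := fun j => if j % 2 = 0 then u (j / 2) else v (j / 2)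
  let f : ℕ → ℤ → ℤ × Fin n := fun j y => (a (j / 2) + y, l j)
  have le : ∀ i, l (2 * i) = u i := by
    intro i
    change (if (2 * i) % 2 = 0 then u (2 * i / 2) else v (2 * i / 2)) = _
    rw [if_pos (by omega), Nat.mul_div_cancel_left i (by norm_num)]
  have lo : ∀ i, l (2 * i + 1) = v i := by
    intro i
    change (if (2 * i + 1) % 2 = 0 then u ((2 * i + 1) / 2) else v ((2 * i + 1) / 2)) = _
    rw [if_neg (by omega), show (2 * i + 1) / 2 = i by omega]
  have fe : ∀ i y, f (2 * i) y = (a i + y, u i) := by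
    intro i y
    change (a (2 * i / 2) + y, l (2 * i)) = _
    rw [le, Nat.mul_div_cancel_left i (by norm_num)]
  have fo : ∀ i y, f (2 * i + 1) y = (a i + y, v i) := by
    intro i y
    change (a ((2 * i + 1) / 2) + y, l (2 * i + 1)) = _
    rw [lo, show (2 * i + 1) / 2 = i by omega]
  have hline : ∀ j, e (l j) = c + (j : ZMod n) := by
    intro j
    rcases Nat.even_or_odd' j with ⟨i, rfl | rfl⟩
    · rw [le, hu]
      push_cast
      ring
    · rw [lo, hv]
      push_cast
      ring
  have hadjshift : ∀ (k : ℤ) (j j' : ℕ) (x y : ℤ), G.Adj (f j x) (f j' y) →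
      G.Adj (f j (x + (m : ℤ) * k)) (f j' (y + (m : ℤ) * k)) := by
    intro k j j' x y hxy
    have h4 := per_all hL hxy k
    have e1 : f j (x + (m : ℤ) * k) = (a (j / 2) + x + m * k, l j) := by
      change (a (j / 2) + (x + (m : ℤ) * k), l j) = _
      rw [add_assoc]
    have e2 : f j' (y + (m : ℤ) * k) = (a (j' / 2) + y + m * k, l j') := by
      change (a (j' / 2) + (y + (m : ℤ) * k), l j') = _
      rw [add_assoc]
    rw [e1, e2]
    exact h4
  -- the rungs
  have hrung : ∀ i, ∃ σ τ : ℤ, G.Adj (f (2 * i + 1) σ) (f (2 * i + 2) τ) := by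
    intro i
    have h1 : (Lg G).Adj (l (2 * i + 1)) (l (2 * i + 2)) := by
      rw [he]
      left
      rw [hline, hline]
      push_cast
      ring
    obtain ⟨x, y, hxy⟩ := Lg_edge h1
    refine ⟨x - a ((2 * i + 1) / 2), y - a ((2 * i + 2) / 2), ?_⟩
    have e1 : f (2 * i + 1) (x - a ((2 * i + 1) / 2)) = (x, l (2 * i + 1)) := by
      change (a ((2 * i + 1) / 2) + (x - a ((2 * i + 1) / 2)), l (2 * i + 1)) = _
      rw [add_sub_cancel]
    have e2 : f (2 * i + 2) (y - a ((2 * i + 2) / 2)) = (y, l (2 * i + 2)) := by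
      change (a ((2 * i + 2) / 2) + (y - a ((2 * i + 2) / 2)), l (2 * i + 2)) = _
      rw [add_sub_cancel]
    rw [e1, e2]
    exact hxy
  choose σ τ hστ using hrung
  -- the unit
  obtain ⟨C, hCpos, hC⟩ : ∃ C : ℤ, 0 < C ∧ ∀ i, i < q → |σ i| < C ∧ |τ i| < C := by
    refine ⟨∑ i ∈ Finset.range q, (|σ i| + |τ i|) + 1, ?_, ?_⟩
    · have : 0 ≤ ∑ i ∈ Finset.range q, (|σ i| + |τ i|) :=
        Finset.sum_nonneg fun i _ => by positivity
      linarith
    · intro i hi
      have h1 : |σ i| + |τ i| ≤ ∑ k ∈ Finset.range q, (|σ k| + |τ k|) :=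
        Finset.single_le_sum (f := fun k => |σ k| + |τ k|) (s := Finset.range q)
          (fun k _ => by positivity) (Finset.mem_range.2 hi)
      have h4 := abs_nonneg (σ i)
      have h5 := abs_nonneg (τ i)
      constructor <;> linarith
  have hm0 : (0 : ℤ) < m := by exact_mod_cast hL.mpos
  have hm1 : (1 : ℤ) ≤ m := hm0
  refine star_of_ladder G q hq f (m * C) (by positivity) ?_ ?_ ?_ ?_ ?_
  · intro j j' hj hj' y y' hjy
    have h4 : l j = l j' := congrArg Prod.snd hjy
    have h4' := congrArg e h4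
    rw [hline, hline] at h4'
    have h5 : (j : ZMod n) = (j' : ZMod n) := add_left_cancel h4'
    have h6 : j = j' := by
      rw [ZMod.natCast_eq_natCast_iff'] at h5
      rwa [Nat.mod_eq_of_lt (by omega), Nat.mod_eq_of_lt (by omega)] at h5
    subst h6
    refine ⟨rfl, ?_⟩
    have h7 : a (j / 2) + y = a (j / 2) + y' := congrArg Prod.fst hjy
    linarith
  · intro j _ y
    have := hL.step (a (j / 2) + y) (l j)
    rw [add_assoc] at this
    exact this
  · intro i _ k
    have h4 : G.Adj (f (2 * i) 0) (f (2 * i + 1) 1) := by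
      rw [fe, fo, add_zero]
      exact h2 i
    have h5 := hadjshift (C * k) _ _ _ _ h4
    have e1 : (m : ℤ) * C * k = 0 + m * (C * k) := by ring
    have e2 : (m : ℤ) * C * k + 1 = 1 + m * (C * k) := by ring
    rw [e2, e1]
    exact h5
  · intro i _ k
    have h4 : G.Adj (f (2 * i + 1) 0) (f (2 * i) 1) := by
      rw [fe, fo, add_zero]
      exact (h3 i).symm
    have h5 := hadjshift (C * k) _ _ _ _ h4
    have e1 : (m : ℤ) * C * k = 0 + m * (C * k) := by ring
    have e2 : (m : ℤ) * C * k + 1 = 1 + m * (C * k) := by ring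
    rw [e2, e1]
    exact h5
  · intro i hi
    obtain ⟨h4, h5⟩ := hC i (by omega)
    have hmC : C ≤ m * C := by nlinarith
    refine ⟨σ i, τ i, by linarith, by linarith, fun k => ?_⟩
    have h6 := hadjshift (C * k) _ _ _ _ (hστ i)
    have e1 : (m : ℤ) * C * k = m * (C * k) := by ring
    rw [e1]
    exact h6

end Pool.Agent.Helper48.NW
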